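import Pool.Agent.W488.IW.Stm

set_option autoImplicit false

/-! # Project IW: the numerical bounds of the certificate -/

namespace Pool.Agent.W308.IW.Bnd

open MeasureTheory Set
open Pool.Agent.W488.IW

section prim

variable {κ : ℝ → ℝ} {L : ℝ}

/-- The hypotheses on `κ` with a real Lipschitz constant at least one. -/
structure HK (κ : ℝ → ℝ) (L : ℝ) : Prop where
  one : 1 ≤ L
  nonneg : ∀ t, 0 ≤ κ t
  lip : ∀ s t, |κ s - κ t| ≤ L * |s - t|
  low : ∀ t, t ≤ 1 / 2 → κ t = 0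
  high : ∀ t, 2 ≤ t → κ t = 0
  cont : Continuous κ

theorem HK.of (hκ : Bump κ) : ∃ L, HK κ L := by
  obtain ⟨L, hL⟩ := hκ.lip
  refine ⟨max L 1, le_max_right _ _, hκ.nonneg, ?_, hκ.low, hκ.high, hL.continuous⟩
  intro s t
  have h1 := hL.dist_le_mul s t
  rw [Real.dist_eq, Real.dist_eq] at h1
  refine h1.trans ?_
  exact mul_le_mul_of_nonneg_right (le_max_left _ _) (abs_nonneg _)

theorem HK.ub (h : HK κ L) (t : ℝ) : κ t ≤ 2 * L := by
  have hL := h.one
  rcases le_total t (1 / 2) with h1 | h1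
  · rw [h.low t h1]; linarith
  · rcases le_total 2 t with h2 | h2
    · rw [h.high t h2]; linarith
    · have h3 := h.lip t (1 / 2)
      rw [h.low (1 / 2) le_rfl, sub_zero, abs_of_nonneg (h.nonneg t),
        abs_of_nonneg (by linarith : (0 : ℝ) ≤ t - 1 / 2)] at h3
      have h4 := mul_le_mul_of_nonneg_left h2 (show (0:ℝ) ≤ L by linarith)
      linarith

theorem HK.ii (h : HK κ L) (s t : ℝ) : IntervalIntegrable κ volume s t :=
  h.cont.intervalIntegrable s t

theorem HK.om1_sub (h : HK κ L) (s t : ℝ) : om1 κ t - om1 κ s = ∫ u in s..t, κ u := by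
  unfold om1
  exact intervalIntegral.integral_interval_sub_left (h.ii 0 t) (h.ii 0 s)

theorem HK.om1_zero (h : HK κ L) {t : ℝ} (ht : t ≤ 1 / 2) : om1 κ t = 0 := by
  unfold om1
  have : ∫ s in (0 : ℝ)..t, κ s = ∫ s in (0 : ℝ)..t, (0 : ℝ) := by
    apply intervalIntegral.integral_congr
    intro s hs
    have h1 : s ≤ max 0 t := hs.2
    exact h.low s (h1.trans (max_le (by norm_num) ht))
  rw [this, intervalIntegral.integral_zero]

theorem HK.om1_mono (h : HK κ L) {s t : ℝ} (hst : s ≤ t) : om1 κ s ≤ om1 κ t := by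
  have h1 := h.om1_sub s t
  have h2 : 0 ≤ ∫ u in s..t, κ u := intervalIntegral.integral_nonneg hst fun u _ => h.nonneg u
  linarith

theorem HK.om1_nonneg (h : HK κ L) (t : ℝ) : 0 ≤ om1 κ t := by
  rcases le_total t (1 / 2) with h1 | h1
  · rw [h.om1_zero h1]
  · have h2 := h.om1_mono h1
    rw [h.om1_zero le_rfl] at h2
    exact h2

theorem HK.om1_lip (h : HK κ L) {s t : ℝ} (hst : s ≤ t) : om1 κ t - om1 κ s ≤ 2 * L * (t - s) := by
  rw [h.om1_sub]
  have h1 : ∫ u in s..t, κ u ≤ ∫ _u in s..t, (2 * L) :=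
    intervalIntegral.integral_mono_on hst (h.ii s t) (by simp) fun u _ => h.ub u
  rw [intervalIntegral.integral_const, smul_eq_mul] at h1
  linarith

theorem HK.om1_ub (h : HK κ L) (t : ℝ) : om1 κ t ≤ 4 * L := by
  have h2 : om1 κ 2 ≤ 4 * L := by
    have h1 := h.om1_lip (show (0 : ℝ) ≤ 2 by norm_num)
    rw [h.om1_zero (by norm_num : (0 : ℝ) ≤ 1 / 2)] at h1
    linarith
  rcases le_total t 2 with h1 | h1
  · exact (h.om1_mono h1).trans h2
  · have h3 := h.om1_sub 2 t
    have h4 : ∫ u in (2 : ℝ)..t, κ u = ∫ u in (2 : ℝ)..t, (0 : ℝ) := by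
      apply intervalIntegral.integral_congr
      intro s hs
      rw [uIcc_of_le h1] at hs
      exact h.high s hs.1
    rw [h4, intervalIntegral.integral_zero] at h3
    linarith

theorem HK.om1_cont (h : HK κ L) : Continuous (om1 κ) := by
  unfold om1
  exact intervalIntegral.continuous_primitive (fun a b => h.ii a b) 0

theorem HK.om_sub (h : HK κ L) (s t : ℝ) : om κ t - om κ s = ∫ u in s..t, om1 κ u := by
  unfold om
  exact intervalIntegral.integral_interval_sub_left (h.om1_cont.intervalIntegrable 0 t)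
    (h.om1_cont.intervalIntegrable 0 s)

theorem HK.om_zero (h : HK κ L) {t : ℝ} (ht : t ≤ 1 / 2) : om κ t = 0 := by
  unfold om
  have : ∫ s in (0 : ℝ)..t, om1 κ s = ∫ s in (0 : ℝ)..t, (0 : ℝ) := by
    apply intervalIntegral.integral_congr
    intro s hs
    have h1 : s ≤ max 0 t := hs.2
    exact h.om1_zero (h1.trans (max_le (by norm_num) ht))
  rw [this, intervalIntegral.integral_zero]

theorem HK.om_nonneg (h : HK κ L) {t : ℝ} (ht : 0 ≤ t) : 0 ≤ om κ t := by
  unfold om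
  exact intervalIntegral.integral_nonneg ht fun u _ => h.om1_nonneg u

theorem HK.om_ub (h : HK κ L) {t : ℝ} (ht : 0 ≤ t) : om κ t ≤ 4 * L * t := by
  unfold om
  have h1 : ∫ u in (0 : ℝ)..t, om1 κ u ≤ ∫ _u in (0 : ℝ)..t, (4 * L) :=
    intervalIntegral.integral_mono_on ht (h.om1_cont.intervalIntegrable 0 t) (by simp) fun u _ => h.om1_ub u
  rw [intervalIntegral.integral_const, smul_eq_mul] at h1
  linarith

/-- The first integral of `κ` near `X`. -/
theorem HK.near1 (h : HK κ L) {X Y s : ℝ} (hY : 0 ≤ Y) (hs1 : X - Y ≤ s) (hs2 : s ≤ X + Y) :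
    |om1 κ s - om1 κ (X - Y) - κ X * (s - (X - Y))| ≤ L * Y * (s - (X - Y)) := by
  have h0 : om1 κ s - om1 κ (X - Y) - κ X * (s - (X - Y)) =
      ∫ u in (X - Y)..s, (κ u - κ X) := by
    rw [intervalIntegral.integral_sub (h.ii _ _) (by simp), intervalIntegral.integral_const, smul_eq_mul, h.om1_sub]
    ring
  rw [h0]
  have h1 : ‖∫ u in (X - Y)..s, (κ u - κ X)‖ ≤ L * Y * |s - (X - Y)| := by
    apply intervalIntegral.norm_integral_le_of_norm_le_const
    intro u hu
    rw [uIoc_of_le hs1] at hu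
    rw [Real.norm_eq_abs]
    refine (h.lip u X).trans ?_
    apply mul_le_mul_of_nonneg_left _ (by linarith [h.one])
    rw [abs_le]
    constructor <;> linarith [hu.1, hu.2]
  rw [Real.norm_eq_abs, abs_of_nonneg (by linarith : (0 : ℝ) ≤ s - (X - Y))] at h1
  exact h1

/-- The second integral of `κ` near `X`. -/
theorem HK.near2 (h : HK κ L) {X Y : ℝ} (hY : 0 ≤ Y) :
    |om κ (X + Y) - om κ (X - Y) - 2 * Y * om1 κ (X - Y) - 2 * Y ^ 2 * κ X| ≤ 2 * L * Y ^ 3 := by
  have hle : X - Y ≤ X + Y := by linarith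
  have hid : ∫ u in (X - Y)..(X + Y), (u - (X - Y)) = 2 * Y ^ 2 := by
    rw [intervalIntegral.integral_sub (by simp) (by simp), integral_id, intervalIntegral.integral_const, smul_eq_mul]
    ring
  have h0 : om κ (X + Y) - om κ (X - Y) - 2 * Y * om1 κ (X - Y) - 2 * Y ^ 2 * κ X =
      ∫ u in (X - Y)..(X + Y), (om1 κ u - om1 κ (X - Y) - κ X * (u - (X - Y))) := by
    have hc : Continuous fun u : ℝ => κ X * (u - (X - Y)) := by fun_prop
    rw [intervalIntegral.integral_sub ((h.om1_cont.intervalIntegrable _ _).sub (by simp))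
        (hc.intervalIntegrable _ _),
      intervalIntegral.integral_sub (h.om1_cont.intervalIntegrable _ _) (by simp), intervalIntegral.integral_const, smul_eq_mul,
      intervalIntegral.integral_const_mul, hid, h.om_sub]
    ring
  rw [h0]
  have hc1 : Continuous fun u : ℝ => |om1 κ u - om1 κ (X - Y) - κ X * (u - (X - Y))| := by
    have := h.om1_cont
    fun_prop
  have hc2 : Continuous fun u : ℝ => L * Y * (u - (X - Y)) := by fun_prop
  calc |∫ u in (X - Y)..(X + Y), (om1 κ u - om1 κ (X - Y) - κ X * (u - (X - Y)))|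
      ≤ ∫ u in (X - Y)..(X + Y), |om1 κ u - om1 κ (X - Y) - κ X * (u - (X - Y))| :=
        intervalIntegral.abs_integral_le_integral_abs hle
    _ ≤ ∫ u in (X - Y)..(X + Y), L * Y * (u - (X - Y)) :=
        intervalIntegral.integral_mono_on hle (hc1.intervalIntegrable _ _) (hc2.intervalIntegrable _ _)
          fun u hu => h.near1 hY hu.1 hu.2
    _ = 2 * L * Y ^ 3 := by
        rw [intervalIntegral.integral_const_mul, hid]
        ring

end prim

theorem main : S_BND := by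
  intro κ hκ
  obtain ⟨L, h⟩ := HK.of hκ
  have hL := h.one
  have hL0 : 0 < L := by linarith
  refine ⟨64 * L, by linarith, ?_⟩
  intro ε hε hε8 x y hx hy X Y hX hY
  have hX2 : X ^ 2 = x ^ 2 + ε ^ 2 := by rw [hX, Real.sq_sqrt (by positivity)]
  have hY2 : Y ^ 2 = y ^ 2 + ε ^ 2 := by rw [hY, Real.sq_sqrt (by positivity)]
  have hX0 : 0 < X := by rw [hX]; positivity
  have hY0 : 0 < Y := by rw [hY]; positivity
  have hXε : ε ≤ X := by rw [hX]; exact Real.le_sqrt_of_sq_le (by linarith [sq_nonneg x])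
  have hYε : ε ≤ Y := by rw [hY]; exact Real.le_sqrt_of_sq_le (by linarith [sq_nonneg y])
  have hXx : x ≤ X := by rw [hX]; exact Real.le_sqrt_of_sq_le (by linarith [sq_nonneg ε])
  have hYy : y ≤ Y := by rw [hY]; exact Real.le_sqrt_of_sq_le (by linarith [sq_nonneg ε])
  have hA0 : 0 ≤ x / X := by positivity
  have hA1 : x / X ≤ 1 := by rw [div_le_one hX0]; exact hXx
  have hB0 : 0 ≤ y / Y := by positivity
  have hB1 : y / Y ≤ 1 := by rw [div_le_one hY0]; exact hYy
  have hA2 : 1 - (x / X) ^ 2 = ε ^ 2 / X ^ 2 := by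
    rw [div_pow]
    field_simp
    linarith
  have hB2 : 1 - (y / Y) ^ 2 = ε ^ 2 / Y ^ 2 := by
    rw [div_pow]
    field_simp
    linarith
  generalize x / X = A at hA0 hA1 hA2 ⊢
  generalize y / Y = B at hB0 hB1 hB2 ⊢
  clear hXx hYy hX2 hY2 hX hY hx hy
  have hA3 : 1 - A ≤ ε ^ 2 / X ^ 2 := by
    rw [← hA2]
    linarith [mul_le_of_le_one_right hA0 hA1, sq A]
  have hB3 : 1 - B ≤ ε ^ 2 / Y ^ 2 := by
    rw [← hB2]
    linarith [mul_le_of_le_one_right hB0 hB1, sq B]
  have hAB : 1 - A * B ≤ (1 - A) + (1 - B) := by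
    linarith [mul_nonneg (sub_nonneg.2 hA1) (sub_nonneg.2 hB1)]
  have hAB0 : 0 ≤ 1 - A * B := by
    linarith [mul_le_one₀ hA1 hB0 hB1]
  have hS0 : 0 < X + Y := by linarith
  have hLX : 0 < L * X := mul_pos hL0 hX0
  have hLY : 0 < L * Y := mul_pos hL0 hY0
  have hLε : 0 < L * ε := mul_pos hL0 hε
  -- multiplication of the small factors
  have smX : ∀ v K : ℝ, 0 ≤ K → v ≤ K * X → ε ^ 2 / X ^ 2 * v ≤ K * ε := by
    intro v K hK hv
    calc ε ^ 2 / X ^ 2 * v ≤ ε ^ 2 / X ^ 2 * (K * X) :=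
          mul_le_mul_of_nonneg_left hv (by positivity)
      _ = K * ε * (ε / X) := by field_simp
      _ ≤ K * ε * 1 := mul_le_mul_of_nonneg_left ((div_le_one hX0).mpr hXε) (by positivity)
      _ = K * ε := mul_one _
  have smY : ∀ v K : ℝ, 0 ≤ K → v ≤ K * Y → ε ^ 2 / Y ^ 2 * v ≤ K * ε := by
    intro v K hK hv
    calc ε ^ 2 / Y ^ 2 * v ≤ ε ^ 2 / Y ^ 2 * (K * Y) :=
          mul_le_mul_of_nonneg_left hv (by positivity)
      _ = K * ε * (ε / Y) := by field_simp
      _ ≤ K * ε * 1 := mul_le_mul_of_nonneg_left ((div_le_one hY0).mpr hYε) (by positivity)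
      _ = K * ε := mul_one _
  -- sizes
  set ρ := rho κ X Y with hρ
  set τ := tau κ X Y with hτ
  set ξ := xi κ X Y with hξ
  set ζ := ze κ X Y with hζ
  have hρ' : ρ = 2 * X * κ (X + Y) / (X + Y) := rfl
  have hτ' : τ = κ (X - Y) := rfl
  have hξ' : ξ = om1 κ (X - Y) / X := rfl
  have hζ' : ζ = (om1 κ (X + Y) - om1 κ (X - Y)) / Y := rfl
  have hρ2 : ρ / 2 = X * κ (X + Y) / (X + Y) := by rw [hρ']; ring
  have hρ0 : 0 ≤ ρ / 2 := by
    rw [hρ2]
    have := h.nonneg (X + Y)
    positivity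
  have hρ1 : ρ / 2 ≤ 2 * L := by
    rw [hρ2, div_le_iff₀ hS0]
    linarith [mul_le_mul_of_nonneg_left (h.ub (X + Y)) hX0.le]
  -- `κ (X + Y) ≤ 4 L (X + Y)`
  have hκS : κ (X + Y) ≤ 4 * L * (X + Y) := by
    rcases le_total (X + Y) (1 / 2) with h1 | h1
    · rw [h.low _ h1]; positivity
    · linarith [h.ub (X + Y), mul_le_mul_of_nonneg_left h1 hL0.le]
  have hρX : ρ / 2 ≤ 4 * L * X := by
    rw [hρ2, div_le_iff₀ hS0]
    linarith [mul_le_mul_of_nonneg_left hκS hX0.le]
  have hρY : |ρ / 2 - κ (X + Y)| ≤ 4 * L * Y := by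
    have h1 : ρ / 2 - κ (X + Y) = -(Y * κ (X + Y) / (X + Y)) := by
      rw [hρ2]
      field_simp
      ring
    have h2 := h.nonneg (X + Y)
    rw [h1, abs_neg, abs_of_nonneg (by positivity), div_le_iff₀ hS0]
    linarith [mul_le_mul_of_nonneg_left hκS hY0.le]
  have hτ0 : 0 ≤ τ := h.nonneg _
  have hτ1 : τ ≤ 2 * L := h.ub _
  have hV : X - Y ≤ 1 / 2 → τ = 0 ∧ om1 κ (X - Y) = 0 ∧ om κ (X - Y) = 0 ∧ ξ = 0 := by
    intro h1
    refine ⟨h.low _ h1, h.om1_zero h1, h.om_zero h1, ?_⟩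
    rw [hξ', h.om1_zero h1, zero_div]
  have hξ0 : 0 ≤ ξ := by
    rw [hξ']
    have := h.om1_nonneg (X - Y)
    positivity
  have hξ1 : ξ ≤ 8 * L := by
    rcases le_total (X - Y) (1 / 2) with h1 | h1
    · rw [(hV h1).2.2.2]; positivity
    · rw [hξ', div_le_iff₀ hX0]
      linarith [h.om1_ub (X - Y),
        mul_le_mul_of_nonneg_left (show 1 / 2 ≤ X by linarith) hL0.le]
  have hζ0 : 0 ≤ ζ := by
    rw [hζ']
    have := h.om1_mono (show X - Y ≤ X + Y by linarith)
    apply div_nonneg _ hY0.le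
    linarith
  have hζ1 : ζ ≤ 4 * L := by
    rw [hζ', div_le_iff₀ hY0]
    have := h.om1_lip (show X - Y ≤ X + Y by linarith)
    linarith
  -- near `X`
  have e1 : |κ (X + Y) - κ X| ≤ L * Y := by
    have := h.lip (X + Y) X
    rwa [show X + Y - X = Y by ring, abs_of_pos hY0] at this
  have e2 : |τ - κ X| ≤ L * Y := by
    have := h.lip (X - Y) X
    rwa [show X - Y - X = -Y by ring, abs_neg, abs_of_pos hY0] at this
  have e3 : |ζ - 2 * κ X| ≤ 2 * L * Y := by
    have h1 := h.near1 (X := X) hY0.le (show X - Y ≤ X + Y by linarith) le_rfl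
    have h2 : ζ - 2 * κ X =
        (om1 κ (X + Y) - om1 κ (X - Y) - κ X * (X + Y - (X - Y))) / Y := by
      rw [hζ']
      field_simp
      ring
    rw [h2, abs_div, abs_of_pos hY0, div_le_iff₀ hY0]
    linarith
  have hG : |2 * GG κ X Y / Y ^ 2 + 4 * κ X| ≤ 4 * L * Y := by
    have h1 := h.near2 (X := X) hY0.le
    have h2 : 2 * GG κ X Y / Y ^ 2 + 4 * κ X =
        -(2 * (om κ (X + Y) - om κ (X - Y) - 2 * Y * om1 κ (X - Y) - 2 * Y ^ 2 * κ X) / Y ^ 2) := by
      unfold GG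
      field_simp
      ring
    rw [h2, abs_neg, abs_div, abs_of_pos (show (0 : ℝ) < Y ^ 2 by positivity),
      div_le_iff₀ (by positivity), abs_mul, abs_two]
    linarith
  have hXL : 1 / 2 ≤ X → L / 2 ≤ L * X := by
    intro h1
    linarith [mul_le_mul_of_nonneg_left h1 hL0.le]
  generalize hg2 : 2 * GG κ X Y / Y ^ 2 = g2 at hG ⊢
  rw [abs_le] at hρY e1 e2 e3 hG
  refine ⟨⟨hA0, hA1⟩, ⟨hB0, hB1⟩, ⟨by linarith, by linarith⟩, ⟨hτ0, by linarith⟩,
    ⟨hξ0, by linarith⟩, ⟨hζ0, by linarith⟩, ?_, ?_, ?_, ?_, ?_, ?_⟩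
  · -- b1
    rw [hA2]
    have h1 : |ρ / 2 + τ - ξ| ≤ 24 * L * X := by
      rcases le_total X (1 / 2) with h1 | h1
      · obtain ⟨h2, -, -, h3⟩ := hV (by linarith)
        rw [h2, h3, add_zero, sub_zero, abs_of_nonneg hρ0]
        linarith
      · have := hXL h1
        rw [abs_le]
        constructor <;> linarith
    refine (smX _ (24 * L) (by positivity) h1).trans ?_
    linarith
  · -- b2
    rw [hB2]
    have h1 : |ρ / 2 + τ - ζ| ≤ 8 * L * Y := by
      rw [abs_le]
      constructor <;> linarith [hρY.1, hρY.2, e1.1, e1.2, e2.1, e2.2, e3.1, e3.2]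
    refine (smY _ (8 * L) (by positivity) h1).trans ?_
    linarith
  · -- b3
    have h1 : |ρ / 2 - τ| ≤ 8 * L * Y := by
      rw [abs_le]
      constructor <;> linarith [hρY.1, hρY.2, e1.1, e1.2, e2.1, e2.2]
    have h2 : |ρ / 2 - τ| ≤ 8 * L * X := by
      rcases le_total X (1 / 2) with h1 | h1
      · obtain ⟨h2, -, -, h3⟩ := hV (by linarith)
        rw [h2, sub_zero, abs_of_nonneg hρ0]
        linarith
      · have := hXL h1
        rw [abs_le]
        constructor <;> linarith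
    have h3 := smX _ (8 * L) (by positivity) h2
    have h4 := smY _ (8 * L) (by positivity) h1
    have h5 : 0 ≤ |ρ / 2 - τ| := abs_nonneg _
    calc (1 - A * B) * |ρ / 2 - τ| ≤ (ε ^ 2 / X ^ 2 + ε ^ 2 / Y ^ 2) * |ρ / 2 - τ| :=
          mul_le_mul_of_nonneg_right (by linarith) h5
      _ = ε ^ 2 / X ^ 2 * |ρ / 2 - τ| + ε ^ 2 / Y ^ 2 * |ρ / 2 - τ| := by ring
      _ ≤ 64 * L * ε := by linarith
  · -- b4
    rcases le_total (X - Y) (1 / 2) with h1 | h1
    · obtain ⟨h2, h3, h4, h5⟩ := hV h1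
      have h6 : EE κ X Y = 0 := by
        unfold EE
        rw [h3, h4]
        ring
      rw [h6, h2, h5]
      have : 0 ≤ 64 * L * ε := by positivity
      simpa using this
    · have hXh : 1 / 2 ≤ X := by linarith
      have hx1 := hXL hXh
      have h2 : |2 * EE κ X Y / X ^ 2 - (ξ + 2 * τ)| ≤ 60 * L := by
        have h3 : |2 * EE κ X Y / X ^ 2| ≤ 48 * L := by
          have h4 : |EE κ X Y| ≤ 12 * L * X := by
            unfold EE
            have a1 := mul_nonneg hX0.le (h.om1_nonneg (X - Y))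
            have a2 := mul_le_mul_of_nonneg_left (h.om1_ub (X - Y)) hX0.le
            have a3 := h.om_nonneg (show 0 ≤ X - Y by linarith)
            have a4 := h.om_ub (show 0 ≤ X - Y by linarith)
            rw [abs_le]
            constructor <;> linarith
          have h5 := mul_le_mul_of_nonneg_left hXh hLX.le
          rw [abs_div, abs_of_pos (show (0 : ℝ) < X ^ 2 by positivity),
            div_le_iff₀ (by positivity), abs_mul, abs_two]
          linarith
        rw [abs_le] at h3 ⊢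
        constructor <;> linarith [h3.1, h3.2]
      have h3 : ε ^ 2 / X ^ 2 ≤ ε / 2 := by
        rw [div_le_iff₀ (by positivity)]
        have h4 : 1 / 4 ≤ X ^ 2 := by
          have := mul_le_mul hXh hXh (by norm_num) hX0.le
          linarith [sq X]
        have h5 := mul_le_mul_of_nonneg_left h4 hε.le
        have h6 := mul_le_mul_of_nonneg_left hε8.le hε.le
        linarith [sq ε]
      rw [hA2]
      calc ε ^ 2 / X ^ 2 * |2 * EE κ X Y / X ^ 2 - (ξ + 2 * τ)| ≤ ε / 2 * (60 * L) :=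
            mul_le_mul h3 h2 (abs_nonneg _) (by positivity)
        _ ≤ 64 * L * ε := by linarith
  · -- b5
    rw [hB2]
    have h1 : |g2 + (ζ + 2 * τ)| ≤ 8 * L * Y := by
      rw [abs_le]
      constructor <;> linarith [hG.1, hG.2, e2.1, e2.2, e3.1, e3.2]
    refine (smY _ (8 * L) (by positivity) h1).trans ?_
    linarith
  · -- b6
    rcases le_total (X - Y) (1 / 2) with h1 | h1
    · obtain ⟨h2, h3, h4, h5⟩ := hV h1
      rw [h2]
      linarith [mul_nonneg hAB0 hζ0]
    · have hXh : 1 / 2 ≤ X := by linarith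
      have hx1 := hXL hXh
      have h2 : 2 * τ - ζ ≤ 8 * L * X := by linarith
      have h3 : 2 * τ - ζ ≤ 8 * L * Y := by
        linarith [e2.1, e2.2, e3.1, e3.2]
      rcases le_total (2 * τ - ζ) 0 with h0 | h0
      · have := mul_nonpos_of_nonneg_of_nonpos hAB0 h0
        linarith
      · have h4 := smX _ (8 * L) (by positivity) h2
        have h5 := smY _ (8 * L) (by positivity) h3
        calc (1 - A * B) * (2 * τ - ζ) ≤ (ε ^ 2 / X ^ 2 + ε ^ 2 / Y ^ 2) * (2 * τ - ζ) :=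
              mul_le_mul_of_nonneg_right (by linarith) h0
          _ = ε ^ 2 / X ^ 2 * (2 * τ - ζ) + ε ^ 2 / Y ^ 2 * (2 * τ - ζ) := by ring
          _ ≤ 64 * L * ε := by linarith

end Pool.Agent.W308.IW.Bnd
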